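import Mathlib

namespace Pool.Agent.H.MP_0bf243_co

/-- a word is rich if it has exactly `|l| + 1` distinct palindromic factors (empty word included) -/
def Rich (l : List Bool) : Prop := {p | p <:+: l ∧ p.reverse = p}.ncard = l.length + 1

/-- every finite horizontal and vertical factor of the full plane `w` is rich -/
def RichPlane (w : ℤ → ℤ → Bool) : Prop :=
  ∀ (i j : ℤ) (n : ℕ), Rich ((List.range (n + 1)).map (fun k : ℕ => w i (j + k))) ∧
    Rich ((List.range (n + 1)).map (fun k : ℕ => w (i + k) j))

end Pool.Agent.H.MP_0bf243_co
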