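import Pool.Agent.H.MP_0bf243_co.Defs

namespace Pool.Agent.H.MP_0bf243_co
open List

def P (l : List Bool) : Set (List Bool) := {p | p <:+: l ∧ p.reverse = p}

lemma P_fin (l : List Bool) : (P l).Finite :=
  (List.finite_toSet l.sublists).subset (fun _ h => mem_sublists.2 h.1.sublist)

lemma P_rev (l : List Bool) : P l.reverse = P l := by
  ext p
  refine and_congr_left (fun h => ?_)
  rw [← reverse_infix, reverse_reverse, h]

lemma rich_rev {l : List Bool} : Rich l.reverse ↔ Rich l := by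
  unfold Rich
  change (P _).ncard = _ ↔ (P _).ncard = _
  rw [P_rev, length_reverse]

lemma P_cons (a : Bool) (l : List Bool) : (P (a :: l)).ncard ≤ (P l).ncard + 1 := by
  have h : (P (a :: l) \ P l).Subsingleton := by
    have key : ∀ p ∈ P (a :: l) \ P l, ∀ q ∈ P (a :: l) \ P l, p.length ≤ q.length → p = q := by
      rintro p ⟨⟨p1, p2⟩, p3⟩ q ⟨⟨q1, q2⟩, q3⟩ hl
      have p4 := (infix_cons_iff.1 p1).resolve_right (fun c => p3 ⟨c, p2⟩)
      have q4 := (infix_cons_iff.1 q1).resolve_right (fun c => q3 ⟨c, q2⟩)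
      have s := prefix_of_prefix_length_le p4 q4 hl
      rw [← p2, ← q2, reverse_prefix] at s
      rcases prefix_cons_iff.1 q4 with rfl | ⟨t, rfl, ht⟩
      · simpa using s
      · rcases suffix_cons_iff.1 s with c | c
        · exact c
        · exact absurd ⟨c.isInfix.trans ht.isInfix, p2⟩ p3
    intro p hp q hq
    rcases le_total p.length q.length with c | c
    · exact key p hp q hq c
    · exact (key q hq p hp c).symm
  have h1 := Set.ncard_le_ncard_diff_add_ncard (P (a :: l)) (P l) (P_fin l)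
  have h2 := (Set.ncard_le_one ((P_fin (a :: l)).diff)).2 (fun a ha b hb => h ha hb)
  omega

lemma P_le (l : List Bool) : (P l).ncard ≤ l.length + 1 := by
  induction l with
  | nil =>
    have : P [] ⊆ {[]} := fun p hp => infix_nil.1 hp.1
    simpa using Set.ncard_le_ncard this
  | cons a l ih => have := P_cons a l; simp only [length_cons]; omega

lemma rich_nil : Rich [] := by
  have : P [] = {[]} := Set.Subset.antisymm (fun p hp => infix_nil.1 hp.1) (by simp [P])
  change (P _).ncard = _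
  simp [this]

lemma Rich.tail {a : Bool} {l : List Bool} (h : Rich (a :: l)) : Rich l := by
  have h1 := P_cons a l
  have h2 := P_le l
  change (P _).ncard = _ at h ⊢
  simp only [length_cons] at h
  omega

lemma Rich.suf (s : List Bool) {l : List Bool} (h : Rich (s ++ l)) : Rich l := by
  induction s with
  | nil => exact h
  | cons a s ih => exact ih h.tail

lemma Rich.pre {l s : List Bool} (h : Rich (l ++ s)) : Rich l := by
  rw [← rich_rev, reverse_append] at h
  exact rich_rev.1 (h.suf _)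

lemma Rich.cons {a : Bool} {l p : List Bool} (h : Rich l) (h1 : p <:+: a :: l) (h2 : p.reverse = p)
    (h3 : ¬ p <:+: l) : Rich (a :: l) := by
  have := Set.ncard_lt_ncard (s := P l) (t := P (a :: l))
    ⟨fun q hq => ⟨hq.1.trans (infix_cons (infix_refl _)), hq.2⟩, fun c => h3 (c ⟨h1, h2⟩).1⟩ (P_fin _)
  have h4 := P_le (a :: l)
  change (P _).ncard = _ at h ⊢
  simp only [length_cons] at *
  omega

def win (x : ℤ → Bool) (s : ℤ) (n : ℕ) : List Bool := (range n).map (fun k : ℕ => x (s + k))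

variable {x : ℤ → Bool}

lemma win_add (s : ℤ) (m n : ℕ) : win x s (m + n) = win x s m ++ win x (s + m) n := by
  simp [win, range_add, add_assoc]

lemma win_inf {s s' : ℤ} {m n : ℕ} (h : win x s m <:+: win x s' n) :
    ∃ d : ℕ, d + m ≤ n ∧ ∀ i : ℕ, i < m → x (s + i) = x (s' + d + i) := by
  obtain ⟨a, b, h⟩ := h
  have l := congrArg length h
  simp only [win, length_append, length_map, length_range] at l
  refine ⟨a.length, by omega, fun i hi => ?_⟩
  have := congrArg (fun l => l[a.length + i]?) h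
  simp only [append_assoc] at this
  rw [getElem?_append_right (by omega), getElem?_append_left (by simp [win]; omega)] at this
  simpa [win, hi, show a.length + i < n by omega, add_assoc] using this

def Pal (x : ℤ → Bool) (s t : ℤ) : Prop := ∀ i, s ≤ i → i < t → x i = x (s + t - 1 - i)

lemma win_pal {s : ℤ} {n : ℕ} (h : Pal x s (s + n)) : (win x s n).reverse = win x s n := by
  refine ext_getElem (by simp) (fun i h1 h2 => ?_)
  simp only [win, length_map, length_range] at h2
  simp only [win, getElem_reverse, getElem_map, getElem_range, length_map, length_range]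
  rw [h (s + i) (by omega) (by omega)]
  congr 1
  omega

def Dif (x : ℤ → Bool) (a b l : ℤ) : Prop := ∃ i, 0 ≤ i ∧ i < l ∧ x (a + i) ≠ x (b + i)

lemma grow_left {s t : ℤ} {n : ℕ} (h : Rich (win x (s + 1) n)) (h1 : s < t) (h2 : t ≤ s + 1 + n)
    (h3 : Pal x s t) (h4 : ∀ s', s < s' → Dif x s s' (t - s)) : Rich (win x s (n + 1)) := by
  obtain ⟨m, rfl⟩ : ∃ m : ℕ, t = s + m := ⟨(t - s).toNat, by omega⟩
  have e : win x s (n + 1) = x s :: win x (s + 1) n := by
    rw [add_comm n, win_add]; simp [win]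
  rw [e]
  refine h.cons (p := win x s m) ?_ (win_pal h3) (fun c => ?_)
  · rw [← e, show n + 1 = m + (n + 1 - m) by omega, win_add]
    exact (prefix_append _ _).isInfix
  · obtain ⟨d, -, hd⟩ := win_inf c
    obtain ⟨i, i0, i1, i2⟩ := h4 (s + 1 + d) (by omega)
    lift i to ℕ using i0
    exact i2 (hd i (by omega))

lemma grow_right {t n : ℕ} (h : Rich (win x 0 n)) (h1 : t ≤ n)
    (h3 : Pal x t (n + 1)) (h4 : ∀ s' : ℤ, 0 ≤ s' → s' < t → Dif x s' t (n + 1 - t)) :
    Rich (win x 0 (n + 1)) := by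
  obtain ⟨m, rfl⟩ := Nat.exists_eq_add_of_le h1
  have pp : (win x t (m + 1)).reverse = win x t (m + 1) :=
    win_pal (by convert h3 using 1; push_cast; ring)
  have e : (win x 0 (t + m + 1)).reverse = x (t + m) :: (win x 0 (t + m)).reverse := by
    rw [win_add]; simp [win]
  rw [← rich_rev, e]
  refine (rich_rev.2 h).cons (p := win x t (m + 1)) ?_ pp (fun c => ?_)
  · rw [← e, ← pp, reverse_infix, add_assoc, win_add 0 t, zero_add]
    exact (suffix_append _ _).isInfix
  · rw [← pp, reverse_infix] at c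
    obtain ⟨d, d1, hd⟩ := win_inf c
    obtain ⟨i, i0, i1, i2⟩ := h4 d (by omega) (by omega)
    lift i to ℕ using i0
    exact i2 (by rw [hd i (by omega), zero_add])

def R (x : ℤ → Bool) (t e : ℤ) : Prop :=
  0 ≤ t ∧ t < e ∧ Pal x t e ∧ ∀ s', 0 ≤ s' → s' < t → Dif x s' t (e - t)

def Q (x : ℤ → Bool) (s t : ℤ) : Prop :=
  s < t ∧ s + t ≤ 25 ∧ Pal x s t ∧ ∀ s', s < s' → Dif x s s' (t - s)

lemma all_rich (hl : ∀ j, j < 0 → x j = x (j + 5)) (hr : ∀ j, 2 ≤ j → x j = x (j + 5))
    (c1 : ∀ e, 1 ≤ e → e < 17 → ∃ t, R x t e ∧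
      (e < 12 ∨ (t + 5 ≤ e ∧ ∀ j, t ≤ j → j < 2 → x j = x (j + 5))))
    (c2 : (x 0 = x 5 ∧ x 1 = x 6) ∨ ∀ s, -10 ≤ s → s < 0 → ∃ t, s < t ∧ s + t ≤ 25 ∧ Pal x s t ∧
      (∀ s', s < s' → s' < 7 → Dif x s s' (t - s)) ∧ (-5 ≤ s ∨
        (s + 5 ≤ t ∧ ∀ j, 0 ≤ j → j + 5 < t → x j = x (j + 5)) ∨
        (2 ≤ t ∧ ∀ i, 0 ≤ i → i < 5 → x (s - 1 - i) = x (t + i))))
    (s : ℤ) (n : ℕ) : Rich (win x s n) := by
  have r1 : ∀ k : ℕ, ∀ e, 12 ≤ e → e < 17 → ∃ t, R x t (e + 5 * k) ∧ t + 5 ≤ e + 5 * k ∧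
      ∀ j, t ≤ j → x j = x (j + 5) := by
    intro k e h1 h2
    induction k with
    | zero =>
      obtain ⟨t, a, b⟩ := c1 e (by omega) h2
      obtain ⟨b1, b2⟩ := b.resolve_left (by omega)
      exact ⟨t, by simpa using a, by simpa using b1,
        fun j hj => if c : j < 2 then b2 j hj c else hr j (by omega)⟩
    | succ k ih =>
      obtain ⟨t, ⟨a1, a2, a3, a4⟩, b1, b2⟩ := ih
      push_cast
      refine ⟨t, ⟨a1, by omega, fun i i1 i2 => ?_, fun s' p q => ?_⟩, by omega, b2⟩
      · by_cases c : i < e + 5 * k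
        · rw [a3 i i1 c, b2 _ (by omega)]; congr 1; ring
        · rw [show i = i - 5 + 5 by ring, ← b2 _ (by omega), a3 _ (by omega) (by omega)]
          congr 1; ring
      · obtain ⟨i, i0, i1, i2⟩ := a4 s' p q
        exact ⟨i, i0, by omega, i2⟩
  have r2 : ∀ n : ℕ, Rich (win x 0 n) := by
    intro n
    induction n with
    | zero => exact rich_nil
    | succ n ih =>
      obtain ⟨t, a1, a2, a3, a4⟩ : ∃ t, R x t (n + 1) := by
        by_cases c : (n : ℤ) + 1 < 17
        · obtain ⟨t, a, -⟩ := c1 _ (by omega) c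
          exact ⟨t, a⟩
        · obtain ⟨t, a, -⟩ := r1 ((n + 1 - 12) / 5) (12 + ((n + 1 - 12) % 5 : ℕ)) (by omega) (by omega)
          exact ⟨t, by convert a using 1; omega⟩
      lift t to ℕ using a1
      exact grow_right ih (by omega) a3 a4
  have r3 : ∀ s : ℕ, Rich (win x s n) := fun s => by
    have := r2 (s + n)
    rw [win_add, zero_add] at this
    exact this.suf _
  by_cases s0 : 0 ≤ s
  · lift s to ℕ using s0
    exact r3 s
  rcases c2 with c2 | c2
  · have p : ∀ j, x j = x (j + 5) := fun j => by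
      by_cases a : j < 0
      · exact hl j a
      by_cases b : 2 ≤ j
      · exact hr j b
      rcases show j = 0 ∨ j = 1 by omega with rfl | rfl
      exacts [c2.1, c2.2]
    have p' : ∀ k : ℕ, ∀ j, x j = x (j + 5 * k) := fun k j => by
      induction k with
      | zero => simp
      | succ k ih => rw [ih, p]; congr 1; push_cast; ring
    have := r3 (s + 5 * (-s).toNat).toNat
    convert this using 1
    refine map_congr_left (fun i _ => ?_)
    rw [p' (-s).toNat]
    congr 1
    omega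
  have nev : ∀ s t, s < 0 → (∀ s', s < s' → s' < 7 → Dif x s s' (t - s)) →
      ∀ s', s < s' → Dif x s s' (t - s) := by
    intro s t h0 h s' hs
    obtain ⟨k, hk⟩ : ∃ k : ℕ, s' < 7 + 5 * k := ⟨s'.toNat, by omega⟩
    induction k generalizing s' with
    | zero => exact h s' hs (by omega)
    | succ k ih =>
      by_cases c : s' < 7
      · exact h s' hs c
      obtain ⟨i, i0, i1, i2⟩ := ih (s' - 5) (by omega) (by push_cast at hk; omega)
      refine ⟨i, i0, i1, ?_⟩
      rwa [hr (s' - 5 + i) (by omega), show s' - 5 + i + 5 = s' + i by ring] at i2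
  have l1 : ∀ k : ℕ, ∀ s, -10 ≤ s → s < -5 → ∃ t, Q x (s - 5 * k) t ∧
      ((s - 5 * k + 5 ≤ t ∧ ∀ j, 0 ≤ j → j + 5 < t → x j = x (j + 5)) ∨
        (2 ≤ t ∧ ∀ i, 0 ≤ i → i < 5 → x (s - 5 * k - 1 - i) = x (t + i))) := by
    intro k s h1 h2
    induction k with
    | zero =>
      obtain ⟨t, a1, a2, a3, a4, a5⟩ := c2 s h1 (by omega)
      exact ⟨t, by simpa using ⟨a1, a2, a3, nev s t (by omega) a4⟩,
        by simpa using a5.resolve_left (by omega)⟩
    | succ k ih =>
      obtain ⟨t, ⟨a1, a2, a3, a4⟩, a5⟩ := ih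
      rw [show s - 5 * ((k + 1 : ℕ) : ℤ) = s - 5 * k - 5 by push_cast; ring]
      have h3 : s - 5 * k < -5 := by omega
      generalize s - 5 * k = u at *
      rcases a5 with ⟨b1, b2⟩ | ⟨b1, b2⟩
      · have p : ∀ j, j + 5 < t → x j = x (j + 5) := fun j c =>
          if d : j < 0 then hl j d else b2 j (by omega) c
        refine ⟨t, ⟨by omega, by omega, fun i i1 i2 => ?_, fun s' q => ?_⟩, Or.inl ⟨by omega, b2⟩⟩
        · by_cases c : u ≤ i
          · rw [a3 i c i2, p (u - 5 + t - 1 - i) (by omega)]; congr 1; ring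
          · rw [p i (by omega), a3 _ (by omega) (by omega)]; congr 1; ring
        · obtain ⟨i, i0, i1, i2⟩ := a4 (s' + 5) (by omega)
          exact ⟨i + 5, by omega, by omega, by convert i2 using 2 <;> ring⟩
      · refine ⟨t + 5, ⟨by omega, by omega, fun i i1 i2 => ?_, fun s' q => ?_⟩,
          Or.inr ⟨by omega, fun i i0 i1 => ?_⟩⟩
        · by_cases c : i < u
          · rw [show i = u - 1 - (u - 1 - i) by ring, b2 _ (by omega) (by omega)]; congr 1; ring
          by_cases c' : i < t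
          · rw [a3 i (by omega) c']; congr 1; ring
          · rw [show i = t + (i - t) by ring, ← b2 _ (by omega) (by omega)]; congr 1; ring
        · obtain ⟨i, i0, i1, i2⟩ := a4 (s' + 5) (by omega)
          exact ⟨i + 5, by omega, by omega, by convert i2 using 2 <;> ring⟩
        · rw [hl _ (by omega), show u - 5 - 1 - i + 5 = u - 1 - i by ring, b2 i i0 i1,
            hr _ (by omega)]
          congr 1; ring
  have l2 : ∀ s, s < 0 → ∃ t, Q x s t := fun s h => by
    by_cases c : -10 ≤ s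
    · obtain ⟨t, a1, a2, a3, a4, -⟩ := c2 s c h
      exact ⟨t, a1, a2, a3, nev s t h a4⟩
    · obtain ⟨t, a, -⟩ := l1 ((-6 - s) / 5).toNat (-6 - (-6 - s) % 5) (by omega) (by omega)
      exact ⟨t, by convert a using 1; omega⟩
  have l3 : ∀ N k : ℕ, k + 25 ≤ N → Rich (win x (-k) (N + k)) := by
    intro N k
    induction k with
    | zero => intro _; simpa using r2 N
    | succ k ih =>
      intro h
      obtain ⟨t, a1, a2, a3, a4⟩ := l2 (-(k + 1 : ℕ)) (by omega)
      refine grow_left (n := N + k) ?_ a1 (by push_cast at *; omega) a3 a4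
      convert ih (by omega) using 2
      push_cast; ring
  have := l3 (n + (-s).toNat + 25) (-s).toNat (by omega)
  rw [show (-((-s).toNat : ℤ)) = s by omega, add_assoc, add_assoc, win_add] at this
  exact this.pre

def al (j : ℤ) : ℕ := if j < 5 then (j % 5).toNat else 2 + ((j - 2) % 5).toNat

def X (n : ℕ) (j : ℤ) : Bool := n.testBit (al j)

def rg (a : ℤ) (b : ℤ) : List ℤ := (range (b - a).toNat).map (fun k : ℕ => a + k)

lemma mem_rg {a b i : ℤ} : i ∈ rg a b ↔ a ≤ i ∧ i < b := by
  simp only [rg, mem_map, mem_range]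
  exact ⟨by rintro ⟨k, h, rfl⟩; omega, fun h => ⟨(i - a).toNat, by omega, by omega⟩⟩

def pal (x : ℤ → Bool) (s t : ℤ) : Bool := (rg s t).all (fun i => x i == x (s + t - 1 - i))
def dif (x : ℤ → Bool) (a b l : ℤ) : Bool := (rg 0 l).any (fun i => x (a + i) != x (b + i))

def chk (x : ℤ → Bool) : Bool :=
  ((rg 1 17).all fun e => (rg 0 e).any fun t => pal x t e && ((rg 0 t).all fun s => dif x s t (e - t))
    && (decide (e < 12) || (decide (t + 5 ≤ e) && (rg t 2).all fun j => x j == x (j + 5)))) &&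
  ((x 0 == x 5 && x 1 == x 6) || (rg (-10) 0).all fun s => (rg (s + 1) 25).any fun t =>
    pal x s t && ((rg (s + 1) 7).all fun s' => dif x s s' (t - s)) && (decide (-5 ≤ s) ||
      (decide (s + 5 ≤ t) && (rg 0 (t - 5)).all fun j => x j == x (j + 5)) ||
      (decide (2 ≤ t) && (rg 0 5).all fun i => x (s - 1 - i) == x (t + i))))

lemma chk_all : (range 128).all (fun n => chk (X n)) = true := by decide +kernel

lemma X_rich {n : ℕ} (hn : n < 128) (s : ℤ) (m : ℕ) : Rich (win (X n) s m) := by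
  have h := all_eq_true.1 chk_all n (mem_range.2 hn)
  simp only [chk, pal, dif, Bool.and_eq_true, Bool.or_eq_true, all_eq_true, any_eq_true, mem_rg,
    beq_iff_eq, bne_iff_ne, decide_eq_true_eq, and_imp] at h
  obtain ⟨h1, h2⟩ := h
  refine all_rich (fun j hj => ?_) (fun j hj => ?_) (fun e a b => ?_) (h2.imp id ?_) s m
  · unfold X al; congr 1; split_ifs <;> omega
  · unfold X al; congr 1; split_ifs <;> omega
  · obtain ⟨t, ⟨t1, t2⟩, ⟨p1, p2⟩, p3⟩ := h1 e a b
    refine ⟨t, ⟨t1, t2, p1, fun s' c d => ?_⟩, p3⟩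
    obtain ⟨i, ⟨i1, i2⟩, i3⟩ := p2 s' c d
    exact ⟨i, i1, i2, i3⟩
  · intro h s a b
    obtain ⟨t, ⟨t1, t2⟩, ⟨p1, p2⟩, p3⟩ := h s a b
    refine ⟨t, by omega, by omega, p1, fun s' c d => ?_, ?_⟩
    · obtain ⟨i, ⟨i1, i2⟩, i3⟩ := p2 s' (by omega) d
      exact ⟨i, i1, i2, i3⟩
    · rcases p3 with (p | p) | p
      · exact Or.inl p
      · exact Or.inr (Or.inl ⟨p.1, fun j c d => p.2 j c (by omega)⟩)
      · exact Or.inr (Or.inr p)

lemma al_lt (j : ℤ) : al j < 7 := by unfold al; split_ifs <;> omega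

lemma al_id {j : ℤ} (h1 : 0 ≤ j) (h2 : j < 7) : (al j : ℤ) = j := by unfold al; split_ifs <;> omega

lemma line (f : ℕ → Bool) (s : ℤ) (m : ℕ) : Rich ((range m).map (fun k : ℕ => f (al (s + k)))) := by
  have := X_rich (Nat.ofBits_lt_two_pow (fun i : Fin 7 => f i)) s m
  convert this using 1
  refine map_congr_left (fun k _ => ?_)
  simp [X, al_lt]

lemma main (w : ℤ → ℤ → Option Bool) (i0 j0 : ℤ)
    (h : ∀ i j, w i j ≠ none → i0 ≤ i ∧ i ≤ i0 + 6 ∧ j0 ≤ j ∧ j ≤ j0 + 6) :
    ∃ w' : ℤ → ℤ → Bool, (∀ i j a, w i j = some a → w' i j = a) ∧ RichPlane w' := by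
  refine ⟨fun i j => (w (i0 + al (i - i0)) (j0 + al (j - j0))).getD false, fun i j a e => ?_,
    fun i j n => ⟨?_, ?_⟩⟩
  · have := h i j (by simp [e])
    simp only
    rw [al_id (by omega) (by omega), al_id (by omega) (by omega)]
    simp [e]
  · simpa only [add_sub_right_comm] using
      line (fun c => (w (i0 + al (i - i0)) (j0 + c)).getD false) (j - j0) (n + 1)
  · simpa only [add_sub_right_comm] using
      line (fun c => (w (i0 + c) (j0 + al (j - j0))).getD false) (i - i0) (n + 1)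

end Pool.Agent.H.MP_0bf243_co
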